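import Mathlib
import Pool.Agent.W203.BE.Stms

/-!
# Project BE, part YNG: Young's inequality in one variable
-/

set_option autoImplicit false

namespace Pool.Agent.W125.BE

open Set Filter MeasureTheory
open scoped Topology ENNReal
open Pool.Agent.W203.BE

/-- Convolution with an integrable kernel on an additive group. -/
theorem young {G : Type*} [MeasurableSpace G] [AddCommGroup G] [MeasurableAdd₂ G]
    [MeasurableNeg G] (μ : Measure G) [SFinite μ] [μ.IsAddLeftInvariant] [μ.IsNegInvariant]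
    (p : ℝ) (hp : 1 ≤ p) (k F : G → ℝ≥0∞) (hk : Measurable k) (hF : Measurable F) :
    ∫⁻ x, (∫⁻ y, k (x - y) * F y ∂μ) ^ p ∂μ ≤ (∫⁻ x, k x ∂μ) ^ p * ∫⁻ y, F y ^ p ∂μ := by
  have hp0 : 0 ≤ p := by linarith
  have hkk : ∀ x : G, Measurable fun y : G => k (x - y) := fun x =>
    hk.comp (measurable_const.sub measurable_id)
  have hint : ∀ x : G, ∫⁻ y, k (x - y) ∂μ = ∫⁻ y, k y ∂μ := fun x => lintegral_sub_left_eq_self k x
  have hstep : ∀ x : G, (∫⁻ y, k (x - y) * F y ∂μ) ^ p ≤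
      (∫⁻ y, k y ∂μ) ^ (p - 1) * ∫⁻ y, k (x - y) * F y ^ p ∂μ := by
    intro x
    rcases eq_or_lt_of_le hp with h1 | h1
    · rw [← h1, sub_self, ENNReal.rpow_zero, one_mul, ENNReal.rpow_one]
      simp only [ENNReal.rpow_one]
      exact le_refl _
    · have hpq : p.HolderConjugate (p / (p - 1)) := Real.HolderConjugate.conjExponent h1
      have hq : 1 / p + 1 / (p / (p - 1)) = 1 := by
        rw [one_div, one_div]; exact hpq.inv_add_inv_eq_one
      have hpp : 0 < p := by linarith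
      have hqq : 0 < p / (p - 1) := div_pos hpp (by linarith)
      have e1 : ∀ y, k (x - y) * F y = ((fun y => k (x - y) ^ (1 / p) * F y) *
          fun y => k (x - y) ^ (1 / (p / (p - 1)))) y := by
        intro y
        simp only [Pi.mul_apply]
        have : k (x - y) = k (x - y) ^ (1 / p) * k (x - y) ^ (1 / (p / (p - 1))) := by
          rw [← ENNReal.rpow_add_of_nonneg _ _ (by positivity) (by positivity), hq,
            ENNReal.rpow_one]
        conv_lhs => rw [this]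
        ring
      have hH := ENNReal.lintegral_mul_le_Lp_mul_Lq μ hpq
        (f := fun y => k (x - y) ^ (1 / p) * F y) (g := fun y => k (x - y) ^ (1 / (p / (p - 1))))
        (((hkk x).pow_const _).mul hF).aemeasurable ((hkk x).pow_const _).aemeasurable
      rw [← lintegral_congr e1] at hH
      have hH2 := ENNReal.rpow_le_rpow hH hp0
      refine hH2.trans (le_of_eq ?_)
      rw [ENNReal.mul_rpow_of_nonneg _ _ hp0, ← ENNReal.rpow_mul, ← ENNReal.rpow_mul]
      have e2 : ∀ y, (k (x - y) ^ (1 / p) * F y) ^ p = k (x - y) * F y ^ p := by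
        intro y
        rw [ENNReal.mul_rpow_of_nonneg _ _ hp0, ← ENNReal.rpow_mul, one_div,
          inv_mul_cancel₀ hpp.ne', ENNReal.rpow_one]
      have e3 : ∀ y, (k (x - y) ^ (1 / (p / (p - 1)))) ^ (p / (p - 1)) = k (x - y) := by
        intro y
        rw [← ENNReal.rpow_mul, one_div, inv_mul_cancel₀ hqq.ne', ENNReal.rpow_one]
      rw [lintegral_congr e2, lintegral_congr e3, hint x, one_div_mul_cancel hpp.ne',
        ENNReal.rpow_one, mul_comm]
      congr 2
      field_simp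
  have hmeas : Measurable fun z : G × G => k (z.1 - z.2) * F z.2 ^ p :=
    (hk.comp (measurable_fst.sub measurable_snd)).mul ((hF.comp measurable_snd).pow_const p)
  calc ∫⁻ x, (∫⁻ y, k (x - y) * F y ∂μ) ^ p ∂μ
      ≤ ∫⁻ x, (∫⁻ y, k y ∂μ) ^ (p - 1) * ∫⁻ y, k (x - y) * F y ^ p ∂μ ∂μ := lintegral_mono hstep
    _ = (∫⁻ y, k y ∂μ) ^ (p - 1) * ∫⁻ x, ∫⁻ y, k (x - y) * F y ^ p ∂μ ∂μ :=
        lintegral_const_mul _ hmeas.lintegral_prod_right'
    _ = (∫⁻ y, k y ∂μ) ^ (p - 1) * ∫⁻ y, ∫⁻ x, k (x - y) * F y ^ p ∂μ ∂μ := by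
        rw [lintegral_lintegral_swap hmeas.aemeasurable]
    _ = (∫⁻ y, k y ∂μ) ^ (p - 1) * ∫⁻ y, (∫⁻ x, k x ∂μ) * F y ^ p ∂μ := by
        congr 1
        refine lintegral_congr fun y => ?_
        have hky : Measurable fun x : G => k (x - y) :=
          hk.comp (measurable_id.sub measurable_const)
        rw [lintegral_mul_const _ hky]
        congr 1
        exact lintegral_sub_right_eq_self k y
    _ = (∫⁻ y, k y ∂μ) ^ (p - 1) * ((∫⁻ x, k x ∂μ) * ∫⁻ y, F y ^ p ∂μ) := by
        rw [lintegral_const_mul _ (hF.pow_const p)]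
    _ = (∫⁻ x, k x ∂μ) ^ p * ∫⁻ y, F y ^ p ∂μ := by
        rw [← mul_assoc]
        congr 1
        conv_lhs => rw [← ENNReal.rpow_one (∫⁻ x, k x ∂μ)]
        rw [← ENNReal.rpow_mul, one_mul, ← ENNReal.rpow_add_of_nonneg _ _ (by linarith)
          (by norm_num)]
        congr 1
        ring

theorem yng : S_BAS → S_YNG := by
  intro hB α hα g hg
  obtain ⟨hc, -, -, hn, -⟩ := hB α hα
  have h1 := young (volume : Measure ℝ) 4 (by norm_num) (fun x => ‖g1 α x‖ₑ) (fun x => ‖g x‖ₑ)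
    hc.measurable.enorm hg.enorm
  have e4 : ∀ t : ℝ≥0∞, t ^ (4 : ℝ) = t ^ 4 := by
    intro t
    rw [← ENNReal.rpow_natCast]
    norm_num
  simp only [e4] at h1
  rw [hn] at h1
  have h2 : ENNReal.ofReal (Real.sqrt (‖α‖ / α.re)) ^ 4 = ENNReal.ofReal ((‖α‖ / α.re) ^ 2) := by
    rw [← ENNReal.ofReal_pow (Real.sqrt_nonneg _)]
    congr 1
    have h3 : Real.sqrt (‖α‖ / α.re) ^ 2 = ‖α‖ / α.re :=
      Real.sq_sqrt (div_nonneg (norm_nonneg _) hα.le)
    calc Real.sqrt (‖α‖ / α.re) ^ 4 = (Real.sqrt (‖α‖ / α.re) ^ 2) ^ 2 := by ring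
      _ = _ := by rw [h3]
  rw [h2] at h1
  refine le_trans (lintegral_mono fun x => ?_) h1
  refine pow_le_pow_left₀ (by exact bot_le) ?_ 4
  unfold T1
  refine (enorm_integral_le_lintegral_enorm _).trans (lintegral_mono fun y => ?_)
  exact (enorm_mul _ _).le

end Pool.Agent.W125.BE
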